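import Pool.Agent.Helper18.FF3.Stmts

/-!
# MP_8312c9_nt, module SHA: translations of `F(u)`
-/

set_option autoImplicit false

namespace Pool.Agent.Helper18.FF3

open Polynomial

/-- **Module SHA.** -/
theorem st_SHA : ST_SHA := by
  intro F _ a
  have hinj : Function.Injective ((algebraMap F[X] (RatFunc F)).comp
      (Polynomial.compRingHom (X + C a))) := by
    have h1 : Function.Injective (Polynomial.compRingHom (X + C a : F[X])) := by
      have h2 : Function.LeftInverse (Polynomial.compRingHom (X - C a : F[X]))
          (Polynomial.compRingHom (X + C a : F[X])) := by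
        intro p
        simp only [Polynomial.coe_compRingHom_apply]
        rw [Polynomial.comp_assoc]
        simp
      exact h2.injective
    exact (IsFractionRing.injective F[X] (RatFunc F)).comp h1
  refine ⟨RatFunc.liftRingHom _ (nonZeroDivisors_le_comap_nonZeroDivisors_of_injective _ hinj),
    fun x => ?_, ?_⟩
  · rw [← RatFunc.algebraMap_C, RatFunc.liftRingHom_algebraMap]
    simp
  · rw [← RatFunc.algebraMap_X, RatFunc.liftRingHom_algebraMap]
    simp

end Pool.Agent.Helper18.FF3
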